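import Pool.Agent.H23.DM.TargetsI
import Pool.Agent.H29.DM.TargetsR
import Pool.Agent.H52.SX.FDA

/-!
# (EF) additive characters and frequencies
-/

set_option autoImplicit false

open NumberField Complex
open scoped nonZeroDivisors

namespace Pool.Agent.H91.DM.EF

open Pool.Agent.H25.HK Pool.Agent.H23.LB Pool.Agent.H23.LC Pool.Agent.H23.DM
open Pool.Agent.H29.DM (R_RL)
open Pool.Agent.H29.TC (Gn LC AC MC T_GX)
open Pool.Agent.H31.SX (ND)
open Pool.Agent.H52.SX (ca_add ca_comm ca_norm mem_du mul_du)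

section

variable {K : Type} [Field K] [NumberField K]

private theorem exists_nd (hGX : T_GX) {k : Ideal (𝓞 K)} (hk : k ≠ ⊥) :
    ∃ θ : 𝓞 K ⧸ k → ℂ, ND θ := by
  have hk0 : (k : FI K) ≠ 0 := FractionalIdeal.coeIdeal_ne_zero.mpr hk
  have hL : du K (k : FI K) ≠ 0 := by
    intro h
    have h1 := mul_du (K := K) hk 1
    rw [mul_one, h, mul_zero] at h1
    have h2 : (0 : K) ≠ 1 := zero_ne_one
    unfold du at h1
    exact (FractionalIdeal.dual_ne_zero ℤ ℚ (one_ne_zero (α := FI K))) h1.symm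
  obtain ⟨y₀, hG⟩ := hGX K k (du K (k : FI K)) hk hL
  let lf : 𝓞 K ⧸ k → 𝓞 K := fun z => (Ideal.Quotient.mk_surjective z).choose
  have hlf : ∀ z, Ideal.Quotient.mk k (lf z) = z := fun z =>
    (Ideal.Quotient.mk_surjective z).choose_spec
  have h1 : ∀ a ∈ k, ca K (a : K) y₀ = 1 := by
    intro a ha
    exact (mem_du hk0).1 hG.mem a ((FractionalIdeal.mem_coeIdeal _).2 ⟨a, ha, rfl⟩)
  have hadd : ∀ a b : 𝓞 K, ca K ((a + b : 𝓞 K) : K) y₀ = ca K (a : K) y₀ * ca K (b : K) y₀ := by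
    intro a b
    rw [ca_comm, show ((a + b : 𝓞 K) : K) = (a : K) + (b : K) from map_add _ _ _, ca_add,
      ca_comm y₀, ca_comm y₀]
  have h2 : ∀ u : 𝓞 K, ca K ((lf (Ideal.Quotient.mk k u) : 𝓞 K) : K) y₀ = ca K (u : K) y₀ := by
    intro u
    have h3 : lf (Ideal.Quotient.mk k u) - u ∈ k := by
      rw [← Ideal.Quotient.mk_eq_mk_iff_sub_mem]
      exact hlf _
    have h4 := hadd (lf (Ideal.Quotient.mk k u) - u) u
    rw [sub_add_cancel, h1 _ h3, one_mul] at h4
    exact h4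
  refine ⟨fun z => ca K (lf z : K) y₀, ⟨⟨fun x y => ?_, fun x => ca_norm _ _⟩, fun w hw => ?_⟩⟩
  · obtain ⟨u, rfl⟩ := Ideal.Quotient.mk_surjective x
    obtain ⟨v, rfl⟩ := Ideal.Quotient.mk_surjective y
    rw [← map_add, h2, h2, h2, hadd]
  · obtain ⟨a, rfl⟩ := Ideal.Quotient.mk_surjective w
    rw [Ideal.Quotient.eq_zero_iff_mem, ← hG.iff a k le_rfl]
    have h3 : (k : FI K) * du K (k : FI K) = du K 1 := by
      have h4 := mul_du (K := K) hk 1
      rwa [mul_one] at h4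
    rw [h3, mem_du (one_ne_zero (α := FI K))]
    intro z hz
    obtain ⟨s, rfl⟩ := (FractionalIdeal.mem_one_iff _).1 hz
    have h4 := hw (Ideal.Quotient.mk k s)
    beta_reduce at h4
    rw [← map_mul, h2] at h4
    rw [← h4]
    unfold ca
    rw [show (algebraMap (𝓞 K) K) s * ((a : K) * y₀) = ((s * a : 𝓞 K) : K) * y₀ by
      push_cast; ring]

/-- cancellation -/
private theorem cancel {e b : Ideal (𝓞 K)} (he : e ≠ ⊥) {x : 𝓞 K}
    (h : ∀ j ∈ e, x * j ∈ e * b) : x ∈ b := by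
  have h1 : e * Ideal.span {x} ≤ e * b := by
    rw [Ideal.mul_le]
    intro j hj y hy
    obtain ⟨c, rfl⟩ := Ideal.mem_span_singleton'.1 hy
    have h2 := Ideal.mul_mem_left (e * b) c (h j hj)
    rwa [show c * (x * j) = j * (c * x) by ring] at h2
  have h2 : e * b ∣ e * Ideal.span {x} := Ideal.dvd_iff_le.2 h1
  have h3 : b ∣ Ideal.span {x} := (mul_dvd_mul_iff_left (show e ≠ 0 from he)).1 h2
  exact (Ideal.dvd_iff_le.1 h3) (Ideal.mem_span_singleton_self x)

end

theorem pf_EF (hRL : R_RL) (hGX : T_GX) : D_EF := by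
  intro K _ _ k hk h210
  refine ⟨exists_nd hGX hk, ?_⟩
  intro θ κ hθ hkκ hκ6
  have hfin : Finite (𝓞 K ⧸ k) := Ideal.finiteQuotientOfFreeOfNeBot k hk
  have hft : Fintype (𝓞 K ⧸ k) := Fintype.ofFinite _
  have hJ : (κ.map (Ideal.Quotient.mk k)) ^ 6 = ⊥ := by
    rw [← Ideal.map_pow]
    exact Ideal.map_mk_eq_bot_of_le hκ6
  have h30 : IsUnit (30 : 𝓞 K ⧸ k) := by
    have h1 : (1 : 𝓞 K) ∈ Ideal.span {(210 : 𝓞 K)} ⊔ k := by rw [h210]; trivial
    obtain ⟨a, ha, b, hb, hab⟩ := Submodule.mem_sup.1 h1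
    obtain ⟨c, rfl⟩ := Ideal.mem_span_singleton'.1 ha
    have h2 : Ideal.Quotient.mk k (7 * c) * (30 : 𝓞 K ⧸ k) = 1 := by
      have h3 : (30 : 𝓞 K ⧸ k) = Ideal.Quotient.mk k 30 :=
        (map_ofNat (Ideal.Quotient.mk k) 30).symm
      rw [h3, ← map_mul, ← map_one (Ideal.Quotient.mk k), Ideal.Quotient.mk_eq_mk_iff_sub_mem]
      have h4 : 7 * c * 30 - 1 = -b := by linear_combination hab
      rw [h4]
      exact neg_mem hb
    exact IsUnit.of_mul_eq_one_right _ h2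
  obtain ⟨r1, r2, r3, r4⟩ := hRL (𝓞 K ⧸ k) θ (κ.map (Ideal.Quotient.mk k)) hθ hJ h30
  refine ⟨fun η hη => ?_, fun η η' γ γ' κ' b hη hη' hF hF' hκ' hk' hkb => ?_,
    fun η γ e k' hη hF hek heκ => ?_, fun η γ π Y hη hF hπ => ?_⟩
  · obtain ⟨γ, hγ⟩ := r1 η hη
    obtain ⟨g, rfl⟩ := Ideal.Quotient.mk_surjective γ
    exact ⟨g, hγ⟩
  · have h1 := r2 η η' _ _ hF hF' (κ'.map (Ideal.Quotient.mk k)) (Ideal.map_mono hκ')
    have hsur : Function.Surjective (Ideal.Quotient.mk k) := Ideal.Quotient.mk_surjective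
    have h2 : (∀ x ∈ κ'.map (Ideal.Quotient.mk k), η (1 + x) = η' (1 + x)) ↔
        ∀ j ∈ κ', η (Ideal.Quotient.mk k (1 + j)) = η' (Ideal.Quotient.mk k (1 + j)) := by
      constructor
      · intro h j hj
        rw [map_add, map_one]
        exact h _ (Ideal.mem_map_of_mem _ hj)
      · intro h x hx
        obtain ⟨j, hj, rfl⟩ := (Ideal.mem_map_iff_of_surjective _ hsur).1 hx
        have h3 := h j hj
        rwa [map_add, map_one] at h3
    rw [← h2, h1]
    have hκ0 : κ' ≠ ⊥ := fun h => hk (le_bot_iff.1 (h ▸ hk'))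
    constructor
    · intro h t ht
      obtain ⟨j, hj, rfl⟩ := (Ideal.mem_map_iff_of_surjective _ hsur).1 ht
      rw [← map_sub, ← map_mul, Ideal.Quotient.eq_zero_iff_mem, hkb, mul_comm κ' b]
      exact Ideal.mul_mem_mul h hj
    · intro h
      refine cancel hκ0 fun j hj => ?_
      have h3 := h _ (Ideal.mem_map_of_mem _ hj)
      rw [← map_sub, ← map_mul, Ideal.Quotient.eq_zero_iff_mem] at h3
      rwa [← hkb]
  · have hk'0 : k' ≠ ⊥ := by
      rintro rfl
      exact hk (by rw [hek, Ideal.mul_bot])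
    have he0 : e ≠ ⊥ := by
      rintro rfl
      exact hk (by rw [hek, Ideal.bot_mul])
    have hfin' : Finite (𝓞 K ⧸ k') := Ideal.finiteQuotientOfFreeOfNeBot k' hk'0
    have h1 : ∀ w : 𝓞 K ⧸ k', Ideal.Quotient.mk k' γ * w = 0 → w = 0 := by
      intro w hw
      obtain ⟨w, rfl⟩ := Ideal.Quotient.mk_surjective w
      rw [← map_mul, Ideal.Quotient.eq_zero_iff_mem] at hw
      rw [Ideal.Quotient.eq_zero_iff_mem]
      refine cancel he0 fun j hj => ?_
      have h2 : Ideal.Quotient.mk k γ * Ideal.Quotient.mk k (w * j) = 0 := by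
        rw [← map_mul, Ideal.Quotient.eq_zero_iff_mem, hek,
          show γ * (w * j) = j * (γ * w) by ring]
        exact Ideal.mul_mem_mul hj hw
      have h3 := r3 η _ hF hη.prim _
        (Ideal.mem_map_of_mem _ (Ideal.mul_mem_left κ w (heκ hj))) h2
      rw [Ideal.Quotient.eq_zero_iff_mem, hek] at h3
      exact h3
    have hinj : Function.Injective fun w : 𝓞 K ⧸ k' => Ideal.Quotient.mk k' γ * w := by
      intro u v huv
      have h2 : Ideal.Quotient.mk k' γ * (u - v) = 0 := by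
        rw [mul_sub, sub_eq_zero]
        exact huv
      exact sub_eq_zero.1 (h1 _ h2)
    obtain ⟨v, hv⟩ := (Finite.surjective_of_injective hinj) 1
    exact IsUnit.of_mul_eq_one _ hv
  · obtain ⟨h1, h2⟩ := r4 η _ hη hF _ (Ideal.mem_map_of_mem _ hπ) (Ideal.Quotient.mk k Y)
    refine ⟨fun hY => ?_, fun hY _ => ?_⟩
    · rw [map_add, map_sub, h1 hY, mul_assoc]
    · rw [map_add]
      exact (h2 hY).1

end Pool.Agent.H91.DM.EF
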